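import Pool.Agent.P8H14.GH.Stm2

set_option autoImplicit false

/-!
# Project GH, package MSC

At most scales `N` the conductors of the bad characters are larger than `N ^ (c' / log log N)`.
-/

open Finset Filter Topology

namespace Pool.Agent.P8H73.GH

open Pool.Agent.TH823.PS
open Pool.Agent.P8H13.PK
open Pool.Agent.P8H13.GK
open Pool.Agent.P8H14.PL
open Pool.Agent.P8H14.QP (sav)
open Pool.Agent.R460.GS (GG ZZ)
open Pool.Agent.R460.GR (BadP)
open Pool.Agent.P8H14.GH
open Pool.Agent.Y614.GJ.Core (ev_log)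

/-- **MSC**: at most scales `N` the conductors of the bad characters are larger than `N ^ (c' / log log N)`. -/
theorem msc (hthc : S_THC) (habl : S_ABL) (hrgc : S_RGC) : S_MSC := by
  intro U ρ ε hρ hε
  obtain ⟨c, C, hc, hc8, hC, hmost⟩ := most_LS
  obtain ⟨c1, l1, hc1, hl1, hth⟩ := hthc (U + 8) c C hc hc8 hC
  obtain ⟨T₀, hab⟩ := habl (U + 6)
  obtain ⟨c', hc', hM⟩ := hmost (min (c1 / 8) (1 / 1600)) (by positivity) ((min_le_right _ _).trans (by norm_num))
    (ε / 2) (by positivity)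
  refine ⟨c', hc', fun N₁ => ?_⟩
  obtain ⟨N₂, hN₂⟩ := Filter.eventually_atTop.1 (ev_log (U + 9) (s := 1 / 10) (by norm_num)
    (200 + 5 ^ (U + 6) + T₀ : ℝ))
  refine most_mono (N₁ := max N₁ (max N₂ 16)) hε (hM l1) fun N hN hG => ⟨(le_max_left _ _).trans hN, ?_⟩
  obtain ⟨l, hl, hReg, hLn1, hLn2, hLn3, hLn4⟩ := hG
  obtain ⟨hL', hpow⟩ := hN₂ N ((le_max_left _ _).trans ((le_max_right _ _).trans hN))
  have hN16 : 16 ≤ N := (le_max_right _ _).trans ((le_max_right _ _).trans hN)
  have hl1000 : 1000 ≤ l := hl1.trans hl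
  have hN0 : (0 : ℝ) < N := by exact_mod_cast (by omega : 0 < N)
  have hN1 : (1 : ℝ) ≤ N := by exact_mod_cast (by omega : 1 ≤ N)
  set L : ℝ := Real.log N with hLd
  have h5 : (0 : ℝ) < 5 ^ (U + 6) := by positivity
  have hT₀ : (0 : ℝ) ≤ T₀ := Nat.cast_nonneg _
  have hL200 : 200 ≤ L := by linarith
  have hL5 : (5 : ℝ) ^ (U + 6) ≤ L := by linarith
  have hLT : (T₀ : ℝ) ≤ L := by linarith
  have hL0 : 0 < L := by linarith
  have hL1 : 1 ≤ L := by linarith
  -- the tenth root of `N`
  obtain ⟨a, ha⟩ : ∃ a : ℝ, a = (N : ℝ) ^ (1 / 10 : ℝ) := ⟨_, rfl⟩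
  rw [← ha] at hpow
  have ha0 : 0 < a := by rw [ha]; exact Real.rpow_pos_of_pos hN0 _
  have hla : Real.log a = L / 10 := by rw [ha, Real.log_rpow hN0]; ring
  have ha3 : (N : ℝ) ^ (3 / 10 : ℝ) = a ^ 3 := by
    rw [ha, ← Real.rpow_natCast, ← Real.rpow_mul hN0.le]
    norm_num
  have haN : a ≤ N := by
    rw [ha]
    calc (N : ℝ) ^ (1 / 10 : ℝ) ≤ (N : ℝ) ^ (1 : ℝ) := Real.rpow_le_rpow_of_exponent_le hN1 (by norm_num)
      _ = N := Real.rpow_one _
  have haL : L ≤ a := by
    calc L = L ^ 1 := (pow_one L).symm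
      _ ≤ L ^ (U + 9) := pow_le_pow_right₀ hL1 (by omega)
      _ ≤ a := hpow
  have haL8 : 2 * L ^ (U + 8) ≤ a := by
    calc 2 * L ^ (U + 8) ≤ L * L ^ (U + 8) := mul_le_mul_of_nonneg_right (by linarith) (by positivity)
      _ = L ^ (U + 9) := by ring
      _ ≤ a := hpow
  have ha200 : 200 ≤ a := hL200.trans haL
  have hZ : a ^ 3 / 2 ≤ (ZZ N : ℝ) := by
    have h1 : a ^ 3 < (ZZ N : ℝ) + 1 := by
      rw [← ha3]
      exact Nat.lt_floor_add_one _
    have h2 : (200 : ℝ) ^ 3 ≤ a ^ 3 := pow_le_pow_left₀ (by norm_num) ha200 3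
    linarith
  have ha2 : a ^ 2 ≤ a ^ 3 / 2 := by
    have h1 : a ^ 3 = a * a ^ 2 := by ring
    have h2 : 0 < a ^ 2 := by positivity
    nlinarith
  have ha22 : a ≤ a ^ 2 := by nlinarith
  have hZ2 : 2 ≤ ZZ N := by
    have : (2 : ℝ) ≤ ZZ N := by linarith
    exact_mod_cast this
  have hZT : T₀ ≤ ZZ N := by
    have : (T₀ : ℝ) ≤ ZZ N := by linarith
    exact_mod_cast this
  have hcL : 0 < c1 * L := mul_pos hc1 hL0
  have hll : 1 ≤ l ^ 2 := one_le_pow₀ (by linarith)
  have hLL : 200 * L ≤ L * L := mul_le_mul_of_nonneg_right hL200 hL0.le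
  have hlog1 : 1 ≤ Real.log L := by
    rw [Real.le_log_iff_exp_le hL0]
    have := Real.exp_one_lt_d9
    linarith
  have hl32 : 100 * l ≤ L / 5 := by
    have h1 : min (c1 / 8) (1 / 1600) * L ≤ 1 / 1600 * L := mul_le_mul_of_nonneg_right (min_le_right _ _) hL0.le
    have h2 : l * 1 ≤ l * Real.log L := mul_le_mul_of_nonneg_left hlog1 (by linarith)
    linarith
  have hlc : 2 * (l * Real.log L) ≤ c1 / 8 * L :=
    hLn3.trans (mul_le_mul_of_nonneg_right (min_le_left _ _) hL0.le)
  intro e ψ hbad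
  by_contra hcon
  rw [not_lt] at hcon
  obtain ⟨he1, -, hprim, y, hyN, hbig⟩ := hbad
  have hexp : (e : ℝ) ≤ Real.exp l := by
    refine hcon.trans ?_
    unfold sav
    exact Real.exp_le_exp.2 hLn4
  -- the sums over the primes
  have key : ∀ T : ℕ, ZZ N ≤ T → T ≤ N → ‖pc e ψ T‖ ≤ 1 / L ^ (U + 4) * T := by
    intro T hT1 hT2
    have hTr : a ^ 3 / 2 ≤ (T : ℝ) := hZ.trans (by exact_mod_cast hT1)
    have hTa : a ^ 2 ≤ (T : ℝ) := ha2.trans hTr
    have hT0 : (0 : ℝ) < T := lt_of_lt_of_le (by positivity) hTa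
    have hTN : (T : ℝ) ≤ N := by exact_mod_cast hT2
    have hlT1 : L / 5 ≤ Real.log T := by
      have h1 := Real.log_le_log (by positivity) hTa
      rw [Real.log_pow, hla] at h1
      push_cast at h1
      linarith
    have hlT2 : Real.log T ≤ L := Real.log_le_log hT0 hTN
    have hlT0 : 0 < Real.log T := by linarith
    have h1 := hab T (hZT.trans hT1) e ψ (by
      intro T' hT'1 hT'2
      have hlow : a ^ 2 ≤ (T' : ℝ) := by
        refine le_trans ?_ hT'1
        rw [le_div_iff₀ (by positivity)]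
        calc a ^ 2 * Real.log T ^ (U + 6 + 2) ≤ a ^ 2 * L ^ (U + 6 + 2) := by gcongr
          _ = a ^ 2 * (2 * L ^ (U + 8)) / 2 := by ring
          _ ≤ a ^ 2 * a / 2 := by gcongr
          _ = a ^ 3 / 2 := by ring
          _ ≤ T := hTr
      have hT'0 : (0 : ℝ) < T' := lt_of_lt_of_le (by positivity) hlow
      have hT'N : (T' : ℝ) ≤ N * Real.exp 1 := by
        have h2 : (T' : ℝ) ≤ T + 1 := by exact_mod_cast hT'2
        have h3 := Real.exp_one_gt_d9
        have h4 : (N : ℝ) * 2 ≤ N * Real.exp 1 := mul_le_mul_of_nonneg_left (by linarith) hN0.le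
        linarith
      have hl1' : L / 5 ≤ Real.log T' := by
        have h1 := Real.log_le_log (by positivity) hlow
        rw [Real.log_pow, hla] at h1
        push_cast at h1
        linarith
      have hl2' : Real.log T' ≤ L + 1 := by
        have h1 := Real.log_le_log hT'0 hT'N
        rwa [Real.log_mul hN0.ne' (Real.exp_pos 1).ne', Real.log_exp] at h1
      have hl3' : Real.log (Real.log T') ≤ 2 * Real.log L := by
        have h2 : Real.log T' ≤ L * L := by linarith
        have h3 := Real.log_le_log (by linarith) h2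
        rw [Real.log_mul hL0.ne' hL0.ne'] at h3
        linarith
      have h2 := hth l hl hReg T' (by linarith) (by linarith) (by
        calc l * Real.log (Real.log T') ≤ l * (2 * Real.log L) := mul_le_mul_of_nonneg_left hl3' (by linarith)
          _ = 2 * (l * Real.log L) := by ring
          _ ≤ c1 / 8 * L := hlc
          _ ≤ c1 * (L / 5) := by linarith
          _ ≤ c1 * Real.log T' := mul_le_mul_of_nonneg_left hl1' hc1.le) e ψ he1 hexp hprim
      exact h2)
    refine h1.trans ?_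
    rw [one_div, inv_mul_eq_div]
    refine div_le_div_of_nonneg_left hT0.le (by positivity) ?_
    calc L ^ (U + 4) = L ^ (U + 4) * 1 := (mul_one _).symm
      _ ≤ L ^ (U + 4) * (L ^ 2 / 5 ^ (U + 6)) := by
          refine mul_le_mul_of_nonneg_left ?_ (by positivity)
          rw [le_div_iff₀ h5, one_mul, sq]
          linarith
      _ = (L / 5) ^ (U + 6) := by
          rw [div_pow, show U + 6 = (U + 4) + 2 by ring, pow_add L (U + 4) 2]
          ring
      _ ≤ Real.log T ^ (U + 6) := pow_le_pow_left₀ (by positivity) hlT1 _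
  have hfin := hrgc N (1 / L ^ (U + 4)) e ψ hZ2 (by positivity) key y hyN
  rw [← hLd] at hfin hbig
  have hlt := lt_of_lt_of_le hbig hfin
  have hLU : 0 < L ^ U := by positivity
  have hb1 : L * (1 + 2 * (1 / L ^ (U + 4)) * N * (1 + L)) ≤ N / L ^ U := by
    have e1 : L * (2 * (1 / L ^ (U + 4)) * N * (1 + L)) ≤ N / L ^ U / 2 := by
      have e2 : 1 + L ≤ 2 * L := by linarith
      calc L * (2 * (1 / L ^ (U + 4)) * N * (1 + L)) ≤ L * (2 * (1 / L ^ (U + 4)) * N * (2 * L)) := by gcongr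
        _ = N / L ^ U * (4 / L ^ 2) := by
            rw [pow_add]
            field_simp
            ring
        _ ≤ N / L ^ U * (1 / 2) := by
            refine mul_le_mul_of_nonneg_left ?_ (by positivity)
            rw [div_le_div_iff₀ (by positivity) (by norm_num), sq]
            linarith
        _ = _ := by ring
    have e2 : L ≤ N / L ^ U / 2 := by
      rw [div_div, le_div_iff₀ (by positivity)]
      calc L * (L ^ U * 2) = 2 * L ^ (U + 1) := by ring
        _ ≤ 2 * L ^ (U + 8) := by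
            refine mul_le_mul_of_nonneg_left (pow_le_pow_right₀ hL1 (by omega)) (by norm_num)
        _ ≤ a := haL8
        _ ≤ N := haN
    calc L * (1 + 2 * (1 / L ^ (U + 4)) * N * (1 + L)) = L + L * (2 * (1 / L ^ (U + 4)) * N * (1 + L)) := by ring
      _ ≤ N / L ^ U / 2 + N / L ^ U / 2 := add_le_add e2 e1
      _ = _ := by ring
  linarith

end Pool.Agent.P8H73.GH
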